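import Pool.Agent.Helper87.MD.Goals

/-!
# MD-LAT: the lattice lemma

The elements `x ≤ X` with `‖x θ‖ ≤ η` (`θ = s ξ`) are at least `w` apart, `w` the least positive
integer with `ρ = ‖w θ‖ ≤ 2 η`. If `4 η w < 1`, those with the same `⌊2 ρ x⌋` are on one line through
lattice points of slope `± ρ / w`, so there are at most `1 + min (2 η / ρ) (X / w)` of them.
-/

set_option autoImplicit false

open Finset

namespace Pool.Agent.Helper41.MD

open Pool.Agent.Helper98.Lang Pool.Agent.Helper87.MD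

theorem card_spaced (S : Finset ℕ) (w : ℕ) (hw : 1 ≤ w) (D : ℝ) (hD : 0 ≤ D)
    (h : ∀ x ∈ S, ∀ y ∈ S, x < y → w ≤ y - x ∧ ((y - x : ℕ) : ℝ) ≤ D * w) :
    (S.card : ℝ) ≤ D + 1 := by
  rcases S.eq_empty_or_nonempty with h0 | hne
  · rw [h0]; simp; linarith
  set m := S.min' hne with hm
  have hmS : m ∈ S := S.min'_mem hne
  have hle : ∀ x ∈ S, m ≤ x := fun x hx => S.min'_le x hx
  have hw0 : (0 : ℝ) < w := by exact_mod_cast hw
  have hmaps : ∀ x ∈ S, (x - m) / w ∈ range (⌊D⌋₊ + 1) := by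
    intro x hx
    rw [mem_range, Nat.lt_add_one_iff]
    apply Nat.le_floor
    rcases (hle x hx).eq_or_lt with h1 | h1
    · rw [← h1]; simpa using hD
    · have h2 := (h m hmS x hx h1).2
      have h3 : (((x - m) / w : ℕ) : ℝ) ≤ ((x - m : ℕ) : ℝ) / w := Nat.cast_div_le
      refine h3.trans ?_
      rw [div_le_iff₀ hw0]
      exact h2
  have hinj : Set.InjOn (fun x => (x - m) / w) (S : Set ℕ) := by
    have key : ∀ x ∈ S, ∀ y ∈ S, x < y → (x - m) / w ≠ (y - m) / w := by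
      intro x hx y hy hxy heq
      have h1 := (h x hx y hy hxy).1
      have h2 := hle x hx
      have h3 : x - m + w ≤ y - m := by omega
      have h4 : (x - m + w) / w ≤ (y - m) / w := Nat.div_le_div_right h3
      rw [Nat.add_div_right _ hw] at h4
      omega
    intro x hx y hy heq
    rcases lt_trichotomy x y with h1 | h1 | h1
    · exact absurd heq (key x hx y hy h1)
    · exact h1
    · exact absurd heq.symm (key y hy x hx h1)
  have hcard := card_le_card_of_injOn _ hmaps hinj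
  rw [card_range] at hcard
  calc (S.card : ℝ) ≤ ((⌊D⌋₊ + 1 : ℕ) : ℝ) := by exact_mod_cast hcard
    _ = (⌊D⌋₊ : ℝ) + 1 := by push_cast; ring
    _ ≤ D + 1 := by linarith [Nat.floor_le hD]

theorem min_le_sqrt {a b : ℝ} (ha : 0 ≤ a) (hb : 0 ≤ b) : min a b ≤ √(a * b) := by
  apply Real.le_sqrt_of_sq_le
  rcases le_total a b with h | h
  · rw [min_eq_left h, sq]
    exact mul_le_mul_of_nonneg_left h ha
  · rw [min_eq_right h, sq]
    exact mul_le_mul_of_nonneg_right h hb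

theorem lat : LatStmt := by
  intro ξ hξ δ hδ
  obtain ⟨c₁, hc₁, hroth⟩ := hξ δ hδ
  refine ⟨8 + √(2 / c₁) + √(1 / c₁), by positivity, ?_⟩
  intro s X η hs hX hη
  have hs0 : (0 : ℝ) < s := by exact_mod_cast hs
  have hX0 : (0 : ℝ) < X := by exact_mod_cast hX
  set θ : ℝ := s * ξ with hθ
  -- Roth for multiples of `θ`
  have hR : ∀ x : ℕ, 1 ≤ x → c₁ ≤ nd ((x : ℝ) * θ) * ((x : ℝ) * s) ^ (1 + δ) := by
    intro x hx
    have h1 := hroth (x * s) (Nat.mul_pos hx hs)
    have hx0 : (0 : ℝ) < x := by exact_mod_cast hx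
    have hxs : (0 : ℝ) < (x : ℝ) * s := mul_pos hx0 hs0
    have h2 : (((x * s : ℕ) : ℝ)) * ξ = (x : ℝ) * θ := by rw [hθ]; push_cast; ring
    rw [h2, Real.rpow_neg (by positivity)] at h1
    push_cast at h1
    have h3 : 0 < ((x : ℝ) * s) ^ (1 + δ) := Real.rpow_pos_of_pos hxs _
    have h4 := mul_le_mul_of_nonneg_right h1 h3.le
    rwa [mul_assoc, inv_mul_cancel₀ h3.ne', mul_one] at h4
  set S := (Icc 1 X).filter (fun x : ℕ => nd ((x : ℝ) * θ) ≤ η) with hS
  have hmem : ∀ x, x ∈ S ↔ (1 ≤ x ∧ x ≤ X) ∧ nd ((x : ℝ) * θ) ≤ η := by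
    intro x
    rw [hS, mem_filter, mem_Icc]
  set T : ℝ := η * ((s : ℝ) * X) ^ (1 + δ) with hTdef
  have hT0 : 0 < T := mul_pos hη (Real.rpow_pos_of_pos (mul_pos hs0 hX0) _)
  rw [← Real.sqrt_eq_rpow T]
  rcases S.eq_empty_or_nonempty with h0 | ⟨x0, hx0⟩
  · rw [h0, card_empty, Nat.cast_zero]
    positivity
  have hx0' := (hmem x0).1 hx0
  -- the constant `1`
  have hT : c₁ ≤ T := by
    have h1 := hR x0 hx0'.1.1
    refine h1.trans ?_
    have h2 : ((x0 : ℝ) * s) ^ (1 + δ) ≤ ((s : ℝ) * X) ^ (1 + δ) := by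
      apply Real.rpow_le_rpow (by positivity) _ (by linarith)
      rw [mul_comm]
      exact mul_le_mul_of_nonneg_left (by exact_mod_cast hx0'.1.2) hs0.le
    exact mul_le_mul hx0'.2 h2 (by positivity) hη.le
  have hone : 1 ≤ √(1 / c₁) * √T := by
    rw [← Real.sqrt_mul (by positivity)]
    apply Real.one_le_sqrt.2
    rw [one_div, ← div_eq_inv_mul, one_le_div hc₁]
    exact hT
  -- the least `w`
  have hex : ∃ w : ℕ, 1 ≤ w ∧ nd ((w : ℝ) * θ) ≤ 2 * η :=
    ⟨x0, hx0'.1.1, by linarith [hx0'.2]⟩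
  classical
  obtain ⟨w, ⟨hw1, hw2⟩, hwmin⟩ : ∃ w : ℕ, (1 ≤ w ∧ nd ((w : ℝ) * θ) ≤ 2 * η) ∧
      ∀ u : ℕ, 1 ≤ u → nd ((u : ℝ) * θ) ≤ 2 * η → w ≤ u :=
    ⟨Nat.find hex, Nat.find_spec hex, fun u h1 h2 => Nat.find_min' hex ⟨h1, h2⟩⟩
  have hwX : w ≤ X := (hwmin x0 hx0'.1.1 (by linarith [hx0'.2])).trans hx0'.1.2
  have hw0 : (0 : ℝ) < w := by exact_mod_cast hw1
  set ρ : ℝ := nd ((w : ℝ) * θ) with hρ
  have hρ0 : 0 < ρ := by
    have h1 := hR w hw1
    by_contra h
    have h2 : ρ * ((w : ℝ) * s) ^ (1 + δ) ≤ 0 :=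
      mul_nonpos_of_nonpos_of_nonneg (not_lt.1 h) (by positivity)
    linarith
  -- differences of elements
  have hdiff : ∀ x ∈ S, ∀ y ∈ S, x < y → w ≤ y - x ∧
      |((y - x : ℕ) : ℝ) * θ - ((round ((y : ℝ) * θ) - round ((x : ℝ) * θ) : ℤ) : ℝ)| ≤ 2 * η := by
    intro x hx y hy hxy
    have h1 := ((hmem x).1 hx).2
    have h2 := ((hmem y).1 hy).2
    unfold nd at h1 h2
    have h3 : |((y - x : ℕ) : ℝ) * θ - ((round ((y : ℝ) * θ) - round ((x : ℝ) * θ) : ℤ) : ℝ)|
        ≤ 2 * η := by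
      rw [Nat.cast_sub hxy.le, Int.cast_sub]
      have h4 : ((y : ℝ) - x) * θ - ((round ((y : ℝ) * θ) : ℝ) - (round ((x : ℝ) * θ) : ℝ))
          = ((y : ℝ) * θ - round ((y : ℝ) * θ)) - ((x : ℝ) * θ - round ((x : ℝ) * θ)) := by ring
      rw [h4]
      exact (abs_sub _ _).trans (by linarith)
    refine ⟨hwmin (y - x) (by omega) ?_, h3⟩
    unfold nd
    exact (round_le _ _).trans h3
  have hyx : ∀ x ∈ S, ∀ y ∈ S, x < y → ((y - x : ℕ) : ℝ) ≤ X := by
    intro x hx y hy hxy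
    have h1 := ((hmem y).1 hy).1.2
    exact_mod_cast (Nat.sub_le y x).trans h1
  by_cases hA : 1 ≤ 4 * η * w
  · -- first case
    have h1 := card_spaced S w hw1 (X / w) (by positivity) (fun x hx y hy hxy =>
      ⟨(hdiff x hx y hy hxy).1, by
        rw [div_mul_cancel₀ _ hw0.ne']
        exact hyx x hx y hy hxy⟩)
    have h2 : (X : ℝ) / w ≤ 4 * η * X := by
      rw [div_le_iff₀ hw0]
      nlinarith
    have h3 : 0 ≤ √(2 / c₁) * √T := by positivity
    have h4 : 0 ≤ (√(2 / c₁) + √(1 / c₁)) * (η * X) := by positivity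
    nlinarith [Real.sqrt_nonneg T]
  · -- second case
    push Not at hA
    set m : ℝ := min (2 * η / ρ) (X / w) with hm
    have hm0 : 0 ≤ m := le_min (by positivity) (by positivity)
    have hfib : ∀ j ∈ range (⌊2 * ρ * X⌋₊ + 1),
        ((S.filter fun x : ℕ => ⌊2 * ρ * x⌋₊ = j).card : ℝ) ≤ m + 1 := by
      intro j _
      refine card_spaced _ w hw1 m hm0 ?_
      intro x hx y hy hxy
      rw [mem_filter] at hx hy
      obtain ⟨h1, h2⟩ := hdiff x hx.1 y hy.1 hxy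
      refine ⟨h1, ?_⟩
      set u : ℕ := y - x with hu
      have hu0 : (0 : ℝ) < u := by
        have : 0 < u := by omega
        exact_mod_cast this
      set q : ℤ := round ((y : ℝ) * θ) - round ((x : ℝ) * θ) with hq
      -- `2 ρ u < 1`
      have h3 : 2 * ρ * (u : ℝ) < 1 := by
        have e1 := Nat.floor_le (a := 2 * ρ * (x : ℝ)) (by positivity)
        have e2 := Nat.lt_floor_add_one (2 * ρ * (y : ℝ))
        rw [hx.2] at e1
        rw [hy.2] at e2
        rw [hu, Nat.cast_sub hxy.le]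
        nlinarith
      -- the determinant
      have h4 : ((u * round ((w : ℝ) * θ) - w * q : ℤ) : ℝ)
          = w * ((u : ℝ) * θ - q) - u * ((w : ℝ) * θ - round ((w : ℝ) * θ)) := by
        push_cast
        ring
      have hρ' : |(w : ℝ) * θ - round ((w : ℝ) * θ)| = ρ := rfl
      have h5 : |((u * round ((w : ℝ) * θ) - w * q : ℤ) : ℝ)| < 1 := by
        rw [h4]
        calc |(w : ℝ) * ((u : ℝ) * θ - q) - u * ((w : ℝ) * θ - round ((w : ℝ) * θ))|
            ≤ |(w : ℝ) * ((u : ℝ) * θ - q)| + |(u : ℝ) * ((w : ℝ) * θ - round ((w : ℝ) * θ))| :=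
              abs_sub _ _
          _ = w * |(u : ℝ) * θ - q| + u * ρ := by
              rw [abs_mul, abs_mul, hρ', abs_of_pos hw0, abs_of_pos hu0]
          _ ≤ w * (2 * η) + u * ρ := by
              have := mul_le_mul_of_nonneg_left h2 hw0.le
              linarith
          _ < 1 := by nlinarith
      have h6 : (u * round ((w : ℝ) * θ) - w * q : ℤ) = 0 := by
        rw [← Int.abs_lt_one_iff]
        exact_mod_cast h5
      rw [h6, Int.cast_zero] at h4
      have h7 : (u : ℝ) * ρ = w * |(u : ℝ) * θ - q| := by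
        have h8 : (u : ℝ) * ((w : ℝ) * θ - round ((w : ℝ) * θ)) = w * ((u : ℝ) * θ - q) := by
          linarith
        have h9 := congrArg abs h8
        rwa [abs_mul, abs_mul, hρ', abs_of_pos hw0, abs_of_pos hu0] at h9
      have h10 : (u : ℝ) ≤ 2 * η / ρ * w := by
        rw [div_mul_eq_mul_div, le_div_iff₀ hρ0, h7]
        have := mul_le_mul_of_nonneg_left h2 hw0.le
        linarith
      have h11 : (u : ℝ) ≤ X / w * w := by
        rw [div_mul_cancel₀ _ hw0.ne']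
        exact hyx x hx.1 y hy.1 hxy
      rw [hm, min_mul_of_nonneg _ _ hw0.le]
      exact le_min h10 h11
    have hmaps : ∀ x ∈ S, ⌊2 * ρ * (x : ℝ)⌋₊ ∈ range (⌊2 * ρ * X⌋₊ + 1) := by
      intro x hx
      rw [mem_range, Nat.lt_add_one_iff]
      apply Nat.floor_le_floor
      have h1 : (x : ℝ) ≤ X := by exact_mod_cast ((hmem x).1 hx).1.2
      exact mul_le_mul_of_nonneg_left h1 (by positivity)
    have hsum : (S.card : ℝ) ≤ (2 * ρ * X + 1) * (m + 1) := by
      rw [card_eq_sum_card_fiberwise hmaps, Nat.cast_sum]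
      calc ∑ j ∈ range (⌊2 * ρ * X⌋₊ + 1),
            ((S.filter fun x : ℕ => ⌊2 * ρ * x⌋₊ = j).card : ℝ)
          ≤ ∑ j ∈ range (⌊2 * ρ * X⌋₊ + 1), (m + 1) := sum_le_sum hfib
        _ = ((⌊2 * ρ * X⌋₊ : ℝ) + 1) * (m + 1) := by
            rw [sum_const, card_range, nsmul_eq_mul]
            push_cast
            ring
        _ ≤ (2 * ρ * X + 1) * (m + 1) := by
            have := Nat.floor_le (a := 2 * ρ * (X : ℝ)) (by positivity)
            exact mul_le_mul_of_nonneg_right (by linarith) (by linarith)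
    have hρm : ρ * m ≤ 2 * η := by
      have h1 : m ≤ 2 * η / ρ := min_le_left _ _
      calc ρ * m ≤ ρ * (2 * η / ρ) := mul_le_mul_of_nonneg_left h1 hρ0.le
        _ = 2 * η := by field_simp
    have hmT : m ≤ √(2 / c₁) * √T := by
      rw [← Real.sqrt_mul (by positivity)]
      refine (min_le_sqrt (by positivity) (by positivity)).trans (Real.sqrt_le_sqrt ?_)
      have h1 := hR w hw1
      rw [← hρ] at h1
      -- `c₁ X ≤ ρ w (s X)^(1+δ)`
      have h2 : c₁ * X ≤ ρ * w * ((s : ℝ) * X) ^ (1 + δ) := by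
        have e1 : ((w : ℝ) * s) ^ (1 + δ) * X ≤ w * ((s : ℝ) * X) ^ (1 + δ) := by
          rw [Real.mul_rpow hw0.le hs0.le, Real.mul_rpow hs0.le hX0.le,
            Real.rpow_add hw0, Real.rpow_add hX0, Real.rpow_one, Real.rpow_one]
          have e2 : (w : ℝ) ^ δ ≤ (X : ℝ) ^ δ :=
            Real.rpow_le_rpow hw0.le (by exact_mod_cast hwX) hδ.le
          have e3 : 0 ≤ (w : ℝ) * (s : ℝ) ^ (1 + δ) * X := by positivity
          calc (w : ℝ) * (w : ℝ) ^ δ * (s : ℝ) ^ (1 + δ) * X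
              = (w : ℝ) * (s : ℝ) ^ (1 + δ) * X * (w : ℝ) ^ δ := by ring
            _ ≤ (w : ℝ) * (s : ℝ) ^ (1 + δ) * X * (X : ℝ) ^ δ :=
                mul_le_mul_of_nonneg_left e2 e3
            _ = (w : ℝ) * ((s : ℝ) ^ (1 + δ) * ((X : ℝ) * (X : ℝ) ^ δ)) := by ring
        calc c₁ * X ≤ ρ * ((w : ℝ) * s) ^ (1 + δ) * X :=
              mul_le_mul_of_nonneg_right h1 hX0.le
          _ = ρ * (((w : ℝ) * s) ^ (1 + δ) * X) := by ring
          _ ≤ ρ * (w * ((s : ℝ) * X) ^ (1 + δ)) := mul_le_mul_of_nonneg_left e1 hρ0.le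
          _ = ρ * w * ((s : ℝ) * X) ^ (1 + δ) := by ring
      have h3 : 2 * η / ρ * (X / w) = 2 * η * X / (ρ * w) := by field_simp
      rw [h3, div_mul_eq_mul_div, div_le_div_iff₀ (by positivity) hc₁, hTdef]
      nlinarith [mul_le_mul_of_nonneg_left h2 hη.le]
    have h1 : (S.card : ℝ) ≤ 8 * (η * X) + 1 + m := by
      have e1 : ρ * X ≤ 2 * η * X := mul_le_mul_of_nonneg_right hw2 hX0.le
      have e2 : ρ * m * X ≤ 2 * η * X := mul_le_mul_of_nonneg_right hρm hX0.le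
      nlinarith
    have h4 : 0 ≤ (√(2 / c₁) + √(1 / c₁)) * (η * X) := by positivity
    nlinarith [Real.sqrt_nonneg T]

end Pool.Agent.Helper41.MD
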